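import Pool.Agent.Helper41.SQC.Goals

/-!
Packet 12564 (SQC-PEC, MP_bb32d1_al): `c_pec`, by helper39.
-/

set_option autoImplicit false

namespace Pool.Agent.Helper39.SQC

open Pool.Agent.Helper19.SQ Pool.Agent.Helper41.SQC

variable {R : Type} [Ring R] [Algebra ℂ R]

theorem qc_mul {a b x : R} {α β : ℂ} (ha : a * x = α • (x * a)) (hb : b * x = β • (x * b)) :
    (a * b) * x = (α * β) • (x * (a * b)) := by
  rw [mul_assoc, hb, mul_smul_comm, ← mul_assoc, ha, smul_mul_assoc, smul_smul, mul_assoc,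
    mul_comm α β]

theorem qc_central {a t x : R} {α : ℂ} (ht : t * x = x * t) (ha : a * x = α • (x * a)) :
    (t * a) * x = α • (x * (t * a)) := by
  have h1 : t * x = (1 : ℂ) • (x * t) := by rw [one_smul, ht]
  have h2 := qc_mul h1 ha
  rwa [one_mul] at h2

theorem qc_smul {a x : R} {α : ℂ} (c : ℂ) (ha : a * x = α • (x * a)) :
    (c • a) * x = α • (x * (c • a)) := by
  rw [smul_mul_assoc, ha, mul_smul_comm, smul_comm]

theorem pow_comm {x f y1 y2 : R} {u1 u2 : ℂ} (h : x * f = f * x + y1 + y2)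
    (h1 : y1 * x = u1 • (x * y1)) (h2 : y2 * x = u2 • (x * y2)) (m : ℕ) :
    x ^ (m + 1) * f = f * x ^ (m + 1) + (∑ r ∈ Finset.range (m + 1), u1 ^ r) • (x ^ m * y1)
      + (∑ r ∈ Finset.range (m + 1), u2 ^ r) • (x ^ m * y2) := by
  have key : ∀ (y : R) (u : ℂ), y * x = u • (x * y) → ∀ m : ℕ, y * x ^ m = u ^ m • (x ^ m * y) := by
    intro y u hy m
    induction m with
    | zero => simp
    | succ m ih =>
      rw [pow_succ, ← mul_assoc, ih, smul_mul_assoc, mul_assoc, hy, mul_smul_comm, smul_smul,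
        pow_succ u, mul_assoc]
  induction m with
  | zero => simp [h]
  | succ m ih =>
    rw [pow_succ' x (m + 1), mul_assoc, ih, mul_add, mul_add, ← mul_assoc x f, h, add_mul, add_mul,
      key y1 u1 h1, key y2 u2 h2, Finset.sum_range_succ _ (m + 1), Finset.sum_range_succ _ (m + 1),
      add_smul, add_smul, mul_smul_comm, mul_smul_comm, ← mul_assoc x, ← mul_assoc x,
      ← pow_succ' x m, mul_assoc f, ← pow_succ' x (m + 1)]
    abel

theorem pow_comm_zero {x f y1 y2 : R} {u1 u2 : ℂ} (h : x * f = f * x + y1 + y2)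
    (h1 : y1 * x = u1 • (x * y1)) (h2 : y2 * x = u2 • (x * y2)) {l : ℕ} (hl : 1 ≤ l)
    (hu1 : u1 ≠ 1) (hu2 : u2 ≠ 1) (hl1 : u1 ^ l = 1) (hl2 : u2 ^ l = 1) :
    x ^ l * f = f * x ^ l := by
  obtain ⟨m, rfl⟩ : ∃ m, l = m + 1 := ⟨l - 1, by omega⟩
  have key : ∀ u : ℂ, u ≠ 1 → u ^ (m + 1) = 1 → ∑ r ∈ Finset.range (m + 1), u ^ r = 0 := by
    intro u hu hu'
    have h3 := geom_sum_mul u (m + 1)
    rw [hu', sub_self] at h3
    exact (mul_eq_zero.mp h3).resolve_right (sub_ne_zero.mpr hu)
  rw [pow_comm h h1 h2, key u1 hu1 hl1, key u2 hu2 hl2, zero_smul, zero_smul, add_zero, add_zero]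

theorem c_pec (hCM : S_CM1T) (hROOT : S_ROOT) (hKWT : S_KWT) : S_PEC := by
  intro R _ _ N l q t t' E F K hP hG i j hij hjN k
  obtain ⟨hA, hB, hC⟩ := hCM R N l q t t' E F K hP hG
  have hl3 := hP.h3
  have hq0 : q ≠ 0 := hP.prim.ne_zero (by omega)
  have hq2 : q ^ 2 ≠ 1 := by
    intro h
    have := Nat.le_of_dvd (by norm_num) (hP.prim.dvd_of_pow_eq_one 2 h)
    omega
  have hqm1 : q ^ 2 ≠ -1 := by
    intro h
    have h4 : q ^ 4 = 1 := by
      have : q ^ 4 = (q ^ 2) ^ 2 := by ring
      rw [this, h]; norm_num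
    have h5 := hP.prim.dvd_of_pow_eq_one 4 h4
    obtain ⟨m, hm⟩ := hP.odd
    obtain ⟨r, hr⟩ := h5
    have h6 : l ≤ 4 := Nat.le_of_dvd (by norm_num) ⟨r, hr⟩
    interval_cases l <;> omega
  have hR := hROOT R q E hq0 hqm1 hG.sE
  have hK := fun p i j hij => hKWT R N l q t t' E F K hP hG p i j hij
  have hu : q ^ 2 ≠ 1 ∧ (q ^ 2) ^ l = 1 := by
    refine ⟨hq2, ?_⟩
    rw [← pow_mul, mul_comm, pow_mul, hP.prim.pow_eq_one, one_pow]
  have hu' : (q⁻¹) ^ 2 ≠ 1 ∧ ((q⁻¹) ^ 2) ^ l = 1 := by
    constructor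
    · intro h
      rw [inv_pow, inv_eq_one] at h
      exact hq2 h
    · rw [inv_pow, inv_pow, hu.2, inv_one]
  -- weights as commutation relations
  have wK : ∀ p i j, i < j → K p * rv q E i j = q ^ ew p i j • (rv q E i j * K p) :=
    fun p i j h => (hK p i j h).1.1
  have wk : ∀ p i j, i < j → ki l K p * rv q E i j = q ^ (-ew p i j) • (rv q E i j * ki l K p) :=
    fun p i j h => (hK p i j h).1.2
  by_cases hki : k = i
  · subst hki
    by_cases hj : j = k + 1
    · -- case D
      subst hj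
      have hEF := hG.EF k (by omega)
      rw [← hR.base k] at hEF
      refine pow_comm_zero (x := rv q E k (k + 1)) (f := F k)
        (y1 := (q - q⁻¹)⁻¹ • (t k * (K k * ki l K (k + 1))))
        (y2 := (-(q - q⁻¹)⁻¹) • (t' k * (ki l K k * K (k + 1))))
        (u1 := q ^ 2) (u2 := (q⁻¹) ^ 2) ?_ ?_ ?_ (by omega) hu.1 hu'.1 hu.2 hu'.2
      · rw [add_assoc, ← sub_eq_iff_eq_add', hEF, neg_smul, smul_sub, sub_eq_add_neg]
        rfl
      · apply qc_smul
        apply qc_central (hG.tc k _)
        have h1 := wK k k (k + 1) (by omega)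
        have h2 := wk (k + 1) k (k + 1) (by omega)
        have h3 := qc_mul h1 h2
        have e1 : ew k k (k + 1) = 1 := by simp [ew]
        have e2 : -ew (k + 1) k (k + 1) = 1 := by simp [ew]
        rw [e1, e2, zpow_one] at h3
        rw [h3]
        congr 1
        ring
      · apply qc_smul
        apply qc_central (hG.tc' k _)
        have h1 := wk k k (k + 1) (by omega)
        have h2 := wK (k + 1) k (k + 1) (by omega)
        have h3 := qc_mul h1 h2
        have e1 : -ew k k (k + 1) = -1 := by simp [ew]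
        have e2 : ew (k + 1) k (k + 1) = -1 := by simp [ew]
        rw [e1, e2, zpow_neg_one] at h3
        rw [h3]
        congr 1
        ring
    · -- case B
      have hij2 : k + 2 ≤ j := by omega
      have hy := hB k j hij2 hjN
      refine pow_comm_zero (x := rv q E k j) (f := F k)
        (y1 := (-1 : ℂ) • (t' k * (rv q E (k + 1) j * kk l K (k + 1) k))) (y2 := 0)
        (u1 := (q⁻¹) ^ 2) (u2 := (q⁻¹) ^ 2) ?_ ?_ (by simp) (by omega) hu'.1 hu'.1 hu'.2 hu'.2
      · rw [add_zero, ← sub_eq_iff_eq_add', hy, neg_smul, one_smul]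
      · apply qc_smul
        apply qc_central (hG.tc' k _)
        have h0 := hR.R11 k (k + 1) j (by omega) (by omega)
        have h0' : rv q E (k + 1) j * rv q E k j = q⁻¹ • (rv q E k j * rv q E (k + 1) j) := by
          rw [h0, smul_smul, inv_mul_cancel₀ hq0, one_smul]
        have h1 := wK (k + 1) k j (by omega)
        have h2 := wk k k j (by omega)
        have h3 := qc_mul h0' (qc_mul h1 h2)
        have e1 : ew (k + 1) k j = 0 := by
          unfold ew
          rw [if_neg (by omega), if_neg (by omega)]; rfl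
        have e2 : -ew k k j = -1 := by
          unfold ew
          rw [if_pos rfl, if_neg (by omega)]; rfl
        rw [e1, e2, zpow_neg_one, zpow_zero, one_mul] at h3
        rw [kk, h3]
        congr 1
        ring
  · by_cases hkj : k + 1 = j
    · -- case C
      subst hkj
      have hik : i < k := by omega
      have hy := hC i k hik hjN
      refine pow_comm_zero (x := rv q E i (k + 1)) (f := F k)
        (y1 := q⁻¹ • (t k * (rv q E i k * kk l K k (k + 1)))) (y2 := 0)
        (u1 := q ^ 2) (u2 := q ^ 2) ?_ ?_ (by simp) (by omega) hu.1 hu.1 hu.2 hu.2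
      · rw [add_zero, ← sub_eq_iff_eq_add', hy]
      · apply qc_smul
        apply qc_central (hG.tc k _)
        have h0 := hR.R10 i k (k + 1) hik (by omega)
        have h1 := wK k i (k + 1) (by omega)
        have h2 := wk (k + 1) i (k + 1) (by omega)
        have h3 := qc_mul h0 (qc_mul h1 h2)
        have e1 : ew k i (k + 1) = 0 := by
          unfold ew
          rw [if_neg (by omega), if_neg (by omega)]; rfl
        have e2 : -ew (k + 1) i (k + 1) = 1 := by
          unfold ew
          rw [if_neg (by omega), if_pos rfl]; rfl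
        rw [e1, e2, zpow_one, zpow_zero, one_mul] at h3
        rw [kk, h3]
        congr 1
        ring
    · exact Commute.pow_left (hA i j k hij hjN hki hkj) l

end Pool.Agent.Helper39.SQC
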